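import Mathlib
import Pool.Agent.Work.MP_787500_nt.GO.FiG
import Pool.Agent.Work.MP_787500_nt.GO.OgF
import Pool.Agent.Work.MP_787500_nt.AC.Gen
import Pool.Agent.Work.MP_787500_nt.AC.SelF
import Pool.Agent.Work.MP_787500_nt.AC.EYB
import Pool.Agent.Work.MP_787500_nt.AC.IsoY
import Pool.Agent.Work.MP_787500_nt.AC.Iso

/-!
The 2-adic Selmer groups of elliptic curves `E` with full two-torsion, and of the products
`E × E0 ^ (2 i)` with a curve `E0` with complex multiplication, over all number fields in the maximal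
2-extension unramified outside 2 of an imaginary quadratic field: for every elliptic curve over `ℚ` with good
reduction outside 2, over all layers of the anticyclotomic `ℤ_2`-extension, they are spanned by Abel-Jacobi
classes.
-/

set_option autoImplicit false

namespace Pool.Agent.Results.MP_787500_nt.AllCodimensions

open IsDedekindDomain NumberField WeierstrassCurve WeierstrassCurve.Affine
open Pool.Agent.Work.MP_787500_nt
open Pool.Agent.Work.MP_787500_nt.AC

universe u

section statement

variable (F : Type u) [Field F] [NumberField F]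

open scoped Classical in
/-- For all curves `E : y ^ 2 = (x - e1) (x - e2) (x - e3)` over `F`: the rank is at most the dimension of
the 2-adic Selmer space, which is at most `d` plus the exponent of the conductor away from 2; if the rank
is equal to this number, the 2-primary part of the Tate-Shafarevich group is trivial, and the Kummer map
is an isomorphism. -/
def AllCurves (d : ℕ) : Prop :=
  ∀ e1 e2 e3 : F, e1 ≠ e2 → e2 ≠ e3 → e3 ≠ e1 →
    (multPlaces e1 e2 e3 ∪ addPlaces e1 e2 e3).Finite ∧
    RankShaBound (legendre e1 e2 e3) (d + condExp e1 e2 e3) ∧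
    (∃ t ρ, IsTateRep (legendre e1 e2 e3) t ρ) ∧ ∀ t ρ, IsTateRep (legendre e1 e2 e3) t ρ →
      (Module.finrank ℤ (legendre e1 e2 e3).Point : Cardinal) ≤
        dimMod (selE (legendre e1 e2 e3) t ρ) (cobE ρ) ∧
      dimMod (selE (legendre e1 e2 e3) t ρ) (cobE ρ) ≤ ((d + condExp e1 e2 e3 : ℕ) : Cardinal) ∧
      (Module.finrank ℤ (legendre e1 e2 e3).Point = d + condExp e1 e2 e3 →
        KummerIso (legendre e1 e2 e3) t ρ)

open scoped Classical in
/-- For all curves `E : y ^ 2 = (x - e1) (x - e2) (x - e3)` over `F` with good reduction outside 2, the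
curve `E0 : y ^ 2 = x (x - 1) (x - (1 - 3 s) / 2)`, and all `i`: modulo the coboundaries the Selmer space
of `E × E0 ^ (2 i)` is the tensor product of the Selmer space of `E` and the space `U_0 ^ i * U_1 ^ i` of
dimension `(2 i choose i) ^ 2`, by `y ⊗ ω ↦ y ∧ ω`; and if the Kummer map of `E` is an isomorphism, the map
`P ⊗ ω ↦ c ∧ ω`, `c` any Kummer cocycle of `P`, is an isomorphism from the tensor product of
`ℚ_[2] ⊗ E(F)` and `U_0 ^ i * U_1 ^ i`. -/
def AllDegrees (s : F) : Prop :=
  (∃ t' ψ, IsTateEigen (legendre 0 1 ((1 - 3 * s) / 2)) t' ψ) ∧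
    ∀ e1 e2 e3 : F, e1 ≠ e2 → e2 ≠ e3 → e3 ≠ e1 → multPlaces e1 e2 e3 ∪ addPlaces e1 e2 e3 = ∅ →
      ∀ t ρ, IsTateRep (legendre e1 e2 e3) t ρ →
        ∀ t' ψ, IsTateEigen (legendre 0 1 ((1 - 3 * s) / 2)) t' ψ → ∀ i : ℕ,
          Module.finrank ℚ_[2] (UU i) = (2 * i).choose i ^ 2 ∧
          SelWedge i (legendre e1 e2 e3) t ρ ψ ∧
          (KummerIso (legendre e1 e2 e3) t ρ → KumWedge i (legendre e1 e2 e3) t ρ ψ)

open scoped Classical in
/-- The group of points of `W` over `F` is finitely generated of rank `N`, and the Kummer map is an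
isomorphism; if `q = 7`, then for the curve `E0 : y ^ 2 = x (x - 1) (x - (1 - 3 s) / 2)` and all `i`, modulo the
coboundaries the Selmer space of `W × E0 ^ (2 i)` is the tensor product of the Selmer space of `W` and
`U_0 ^ i * U_1 ^ i`, and also of `ℚ_[2] ⊗ W(F)` and `U_0 ^ i * U_1 ^ i`. -/
def AllIso {F : Type u} [Field F] [NumberField F] (q : ℕ) (s : F) (W : WeierstrassCurve.Affine F)
    (N : ℕ) : Prop :=
  AddGroup.FG W.Point ∧ Module.finrank ℤ W.Point = N ∧ (∃ t ρ, IsTateRep W t ρ) ∧
    ∀ t ρ, IsTateRep W t ρ → KummerIso W t ρ ∧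
      (q = 7 → ∀ t' ψ, IsTateEigen (legendre 0 1 ((1 - 3 * s) / 2)) t' ψ →
        ∀ i : ℕ, SelWedge i W t ρ ψ ∧ KumWedge i W t ρ ψ)

/-- `b (a ^ 2 - 4 b)` is plus or minus a power of 2. -/
def TwoPow (a b : ℤ) : Prop :=
  ∃ k : ℕ, b * (a ^ 2 - 4 * b) = 2 ^ k ∨ b * (a ^ 2 - 4 * b) = -2 ^ k

open scoped Classical in
/-- Let `F'` be a number field with `DihField K F' s`: Galois over `ℚ`, of degree a power of 2 over `K`, unramified
over `K` outside 2, and all automorphisms `t` with `t s = -s` are of order two (the subfields of 2-power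
degree over `K` of the ring class fields of 2-power conductor, for example the layers of the anticyclotomic
`ℤ_2`-extension). Let `F` be a field between `K` and `F'` and `d ≠ 0` an element of `F` which is a square in `F'`.
Then `F` is in the maximal 2-extension of `K` unramified outside 2, and for all integers `a`, `b` with `TwoPow a b`,
`AllIso` holds with rank `[F : K]` for the curve `y ^ 2 = x ^ 3 + d a x ^ 2 + d ^ 2 b x` over `F`. There are such
fields `F'` of all degrees `2 ^ n`. Every Weierstrass curve over `ℤ` with discriminant `± 2 ^ k` (so every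
elliptic curve over `ℚ` with good reduction outside 2) is isomorphic over `ℚ` to a curve
`y ^ 2 = x ^ 3 + a x ^ 2 + b x` with `TwoPow a b`. -/
def AllLayers (K : Type u) [Field K] [NumberField K] (q : ℕ) (s : K) : Prop :=
  (∀ (F F' : Type u) [Field F] [NumberField F] [Algebra K F] [Field F'] [NumberField F']
    [Algebra K F'] [Algebra F F'] [IsScalarTower K F F'], HD.DihField K F' s →
    ∀ (d : F) (r : F'), d ≠ 0 → r ^ 2 = algebraMap F F' d → ∀ a b : ℤ, TwoPow a b →
      InTwoTower K F ∧
        AllIso q (algebraMap K F s) ⟨0, d * (a : F), 0, d ^ 2 * (b : F), 0⟩ (Module.finrank K F)) ∧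
  (∀ n : ℕ, ∃ (F : Type u) (_ : Field F) (_ : NumberField F) (_ : Algebra K F),
    HD.DihField K F s ∧ Module.finrank K F = 2 ^ n) ∧
  ∀ (W : WeierstrassCurve ℤ) (k : ℕ), W.Δ = 2 ^ k ∨ W.Δ = -2 ^ k → ∃ a b : ℤ, TwoPow a b ∧
    ∃ C : VariableChange ℚ, C • W.map (Int.castRingHom ℚ) = ⟨0, (a : ℚ), 0, (b : ℚ), 0⟩

end statement

theorem result (K : Type u) [Field K] [NumberField K] (q : ℕ) (s : K) (hb : IsBase K q s) :
    (∀ (F : Type u) [Field F] [NumberField F] [Algebra K F], InTwoTower K F →
      AllCurves F (Module.finrank K F) ∧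
        (q = 7 → AllDegrees F (algebraMap K F s))) ∧
    AllLayers K q s := by
  refine ⟨fun F _ _ _ hF => ⟨?_, ?_⟩, (GO.all_layers hb).1, (GO.all_layers hb).2, ?_⟩
  · intro e1 e2 e3 h12 h23 h31
    classical
    have hT := legendre_twoTors h12 h23 h31
    obtain ⟨hfin, hB⟩ := RS.bound hb hF h12 h23 h31
    refine ⟨hfin, hB, exists_tateRep hT, fun t ρ hr => ⟨?_, ?_, fun hrk => ?_⟩⟩
    · exact finrank_le_selE hT hr hB.1
    · obtain ⟨hf, hle'⟩ := selmer_bound hb hF h12 h23 h31 hr
      rw [dimMod_eq _ _ _ _ (span_selE hr) span_cobE, ← Module.finrank_eq_rank]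
      exact_mod_cast hle'
    · exact kummerIso hT hr hB.1 (selE_kum hr (kummerOnto hT hr hB.1 hrk (hB.2.2 hrk)))
  · rintro rfl
    have hK := hb.1
    have hs : s ^ 2 = -7 := by
      rw [hb.2.1]
      norm_num
    refine ⟨exists_tateEigen ?_, fun e1 e2 e3 h12 h23 h31 hgood t ρ hr t' ψ hψ i => ?_⟩
    · rw [← map_pow, hs, map_neg, map_ofNat]
    classical
    have hT := legendre_twoTors h12 h23 h31
    have hc : condExp e1 e2 e3 = 0 := by
      rw [Set.union_empty_iff] at hgood
      rw [condExp, hgood.1, hgood.2, Set.ncard_empty]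
    obtain ⟨hfin, hFG, hle, hsha⟩ := RS.bound hb hF h12 h23 h31
    have hsp : Submodule.span ℚ_[2] (selY i (legendre e1 e2 e3) t ρ ψ) =
        Submodule.span ℚ_[2] (cobs i ρ ψ ∪ wedges i (selE (legendre e1 e2 e3) t ρ)) :=
      selY_span detChar_apply (fun a b => noSelmer_char hK hs hF hψ a b 1)
        (fun a b => noSelmer_twist hK hs hF hT hfin hc hr hψ a b)
        (fun a b => noSelmer_det hK hs hF hT hfin hc hr hψ a b 1)
    have hw := selWedge hr hsp
    exact ⟨finrank_UU i, hw, fun hk => kumWedge hk hw⟩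
  · intro W k h
    exact GO.ogg W h

end Pool.Agent.Results.MP_787500_nt.AllCodimensions
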