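import Mathlib
import Pool.Agent.Work.MP_787500_nt.UV.FDefs
import Pool.Agent.Work.MP_787500_nt.AR.FDefs2
import Pool.Agent.Work.MP_787500_nt.AR.FDefs3
import Pool.Agent.Work.MP_787500_nt.RC.FDefs
import Pool.Agent.Work.MP_787500_nt.UA.Tower

/-!
Parity of the dimensions of 2-adic Bloch-Kato Selmer groups of conjugate self-dual representations.

`K` is any imaginary quadratic field, `F` any number field that does not contain `K`, and `M = K F`; `H` is the absolute
Galois group of `M` in the absolute Galois group `AbsGal K` of `K`, and `c` is an element of the absolute Galois group of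
`F` that is not in `H`: it acts on `K` by `s ↦ -s`, it normalizes `H`, and `c²` is in `H`. The representation `τ` of `H`
is conjugate self-dual with respect to `c`, with the sign of the representations that are restrictions of symplectic
representations of the absolute Galois group of `F`, and the traces of `τ g` and `τ g⁻¹` are congruent modulo the maximal
ideal (this is true for restrictions of symplectic representations). It may be ramified at 2 and at any finite set `T` of
odd primes: arbitrarily at the primes that are inert in `K`, where the contribution to the formula is given by the Artin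
conductor (of `τ` and of `M / K`), and semistable at the primes that divide `D`.

The places of `M` over 2 are represented by the primes `P i`; the relation between `i`, `j` and `h` says that `h c` maps
`P i` to `P j`. The local conditions `L i` at the places over 2 are arbitrary, but the condition at the conjugate place
is the annihilator. The parity of the dimension of the Selmer group is given by the comparison with Greenberg's
conditions for a family of subspaces `W i` such that the subspace at the conjugate place is the annihilator (if 2 splits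
in `K` there are always such families, with `W i = ⊤` over one of the primes and `W i = ⊥` over the other one), plus
contributions of the primes in `T` that do not split in `K`. The subgroup `N` is used to define the conductors: the
ramification groups are those of the field fixed by `N`.
-/

set_option autoImplicit false

namespace Pool.Agent.Results.MP_787500_nt.BlochKatoParity

open Pool.Agent.Work.MP_787500_nt Pool.Agent.Work.MP_787500_nt.Parity
open Pool.Agent.Work.MP_787500_nt.SH Pool.Agent.Work.MP_787500_nt.SF Pool.Agent.Work.MP_787500_nt.UV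
open Pool.Agent.Work.MP_787500_nt.AR (IsAux condB)
open Pool.Agent.Work.MP_787500_nt.GP (inT stabD)
open NumberField

universe u v w₁ w₂

open scoped Classical in
theorem result (K : Type u) [Field K] [NumberField K] (hK : Module.finrank ℚ K = 2) (D : ℕ)
    (hD : Squarefree D) (s : K) (hs : s ^ 2 = -(D : K))
    (c : AlgebraicClosure K ≃+* AlgebraicClosure K)
    (hcs : c (algebraMap K (AlgebraicClosure K) s) = -algebraMap K (AlgebraicClosure K) s)
    (T : Finset ℕ) (hT : ∀ l ∈ T, l.Prime ∧ l ≠ 2)
    (H : Subgroup (AbsGal K)) (hH : IsOpen (H : Set (AbsGal K))) (hTH : ∀ σ ∈ inT K T, σ ∈ H)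
    (κ : H → H)
    (hκ : ∀ (σ : H) (x : AlgebraicClosure K), (κ σ : AbsGal K) (c x) = c ((σ : AbsGal K) x))
    (c₂ : H) (hc₂ : ∀ x : AlgebraicClosure K, (c₂ : AbsGal K) x = c (c x))
    (E : Type v) [NormedField E] [NormedAlgebra ℚ_[2] E] [FiniteDimensional ℚ_[2] E] (n : ℕ)
    (τ : H →* Matrix (Fin n) (Fin n) E) (b : Matrix (Fin n) (Fin n) E) (hb : b.det ≠ 0)
    (hτ : IsDualF {σ : H | (σ : AbsGal K) ∈ inT K T} (fun σ => cyclo E (σ : AbsGal K)) κ
      c₂ (cycloAut E c) τ b) (hres : ResTrace τ)
    (Ψ : ℕ → Type w₁) [∀ l, Fintype (Ψ l)] (Q : ∀ l, Ψ l → Ideal (𝓞 (AlgebraicClosure K)))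
    (hQ : ∀ l ∈ T, IsReps H {Q | Q.IsPrime ∧ (l : 𝓞 (AlgebraicClosure K)) ∈ Q} (Q l))
    (hR : ∀ l ∈ T, l ∣ D → ∀ i, (Q l i).inertia (AbsGal K) ≤ H ∧
      SemistableOn (((Q l i).inertia (AbsGal K)).subgroupOf H) τ)
    (Φ : Type w₂) [Fintype Φ] (P : Φ → Ideal (𝓞 (AlgebraicClosure K)))
    (hP : IsReps H {Q | Q.IsPrime ∧ (2 : 𝓞 (AlgebraicClosure K)) ∈ Q} P)
    (W : Φ → Submodule E (Fin n → E))
    (hW : IsDualSub τ b (fun i => (stabD (P i)).subgroupOf H)
      (fun i j h => ∀ x y : 𝓞 (AlgebraicClosure K), (y : AlgebraicClosure K) = c x →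
        (x ∈ P i ↔ (h : AbsGal K) • y ∈ P j)) W)
    (v : Ideal (𝓞 K)) (hv : v.IsPrime) (hv2 : (2 : 𝓞 K) ∈ v) :
    (∃ N, IsAux {l | l ∈ T ∧ ¬ SqMod D l} Q τ N) ∧
      ∀ N, IsAux {l | l ∈ T ∧ ¬ SqMod D l} Q τ N →
        ParityDual {I : Subgroup H | ∃ J ∈ inertiaOffTwo K, I = J.subgroupOf H}
          (fun σ => cyclo E (σ : AbsGal K)) κ τ b (fun i => (stabD (P i)).subgroupOf H)
          (fun i j h => ∀ x y : 𝓞 (AlgebraicClosure K), (y : AlgebraicClosure K) = c x →
            (x ∈ P i ↔ (h : AbsGal K) • y ∈ P j)) W
          (fun i => if (P i).comap (algebraMap (𝓞 K) (𝓞 (AlgebraicClosure K))) = v then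
            H.relIndex (stabD (P i)) else 0)
          (∑ l ∈ T.filter (fun l => ¬ SqMod D l), condB l N τ (Q l) +
            ∑ l ∈ T.filter (fun l => l ∣ D), condR H τ (fun i => stabD (Q l i))
              (fun i => (Q l i).inertia (AbsGal K))) :=
  UA.towerUB K hK D hD s hs c hcs T hT H hH hTH κ hκ c₂ hc₂ E n τ b hb hτ hres Ψ Q hQ hR Φ P hP W hW v
    hv hv2

end Pool.Agent.Results.MP_787500_nt.BlochKatoParity
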