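import Mathlib
import Pool.Agent.Work.MP_787500_nt.CP.FDefs
import Pool.Agent.Work.MP_787500_nt.ER.FDefs
import Pool.Agent.Work.MP_787500_nt.CP.RDefs
import Pool.Agent.Work.MP_787500_nt.RP.FDefs
import Pool.Agent.Work.MP_787500_nt.RP.Final

/-!
Conjugate self-dual 2-adic representations over an imaginary quadratic field in which 2 splits, with congruent
characteristic polynomials: the parities of the dimensions of their Bloch-Kato Selmer groups differ by explicit local
numbers. There is no condition on the residual representation, and the representations can be ramified at any primes.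
-/

set_option autoImplicit false

namespace Pool.Agent.Results.MP_787500_nt.CongruentParity

open Pool.Agent.Work.MP_787500_nt Pool.Agent.Work.MP_787500_nt.Parity
open Pool.Agent.Work.MP_787500_nt.GP (inT stabD)
open NumberField Matrix

universe u w

theorem result (K : Type u) [Field K] [NumberField K] (hK : Module.finrank ℚ K = 2) (D : ℕ)
    (hD : Squarefree D) (hD8 : D % 8 = 7) (s : K) (hs : s ^ 2 = -(D : K))
    (P : Ideal (𝓞 (AlgebraicClosure K))) (hP : P.IsPrime)
    (hP2 : (2 : 𝓞 (AlgebraicClosure K)) ∈ P)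
    (c : AlgebraicClosure K ≃+* AlgebraicClosure K) (hc : ∀ x, c (c x) = x)
    (hcs : c (algebraMap K (AlgebraicClosure K) s) = -algebraMap K (AlgebraicClosure K) s)
    (κ : AbsGal K → AbsGal K)
    (hκ : ∀ (σ : AbsGal K) (x : AlgebraicClosure K), κ σ x = c (σ (c x)))
    (T : Finset ℕ) (hT : ∀ l ∈ T, l.Prime ∧ l ≠ 2)
    (R : ℕ → Ideal (𝓞 (AlgebraicClosure K)))
    (hR : ∀ l ∈ T, (R l).IsPrime ∧ (l : 𝓞 (AlgebraicClosure K)) ∈ R l)
    (E : Type w) [NormedField E] [NormedAlgebra ℚ_[2] E] [FiniteDimensional ℚ_[2] E] (n : ℕ)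
    (ρ ρ' : AbsGal K →* Matrix (Fin n) (Fin n) E) (b b' : Matrix (Fin n) (Fin n) E)
    (hρ : IsDualRep (inT K T) (cyclo E) κ ρ b) (hρ' : IsDualRep (inT K T) (cyclo E) κ ρ' b')
    (hb : b.det ≠ 0) (hb' : b'.det ≠ 0) (hch : CongruentPoly ρ ρ')
    (hloc : CongruentAt D T R ρ ρ' b b')
    (L L' : Submodule E (stabD P → Fin n → E))
    (hL : Between (coboundaries (fun σ : stabD P => ρ σ)) L (cocycles (fun σ : stabD P => ρ σ)))
    (hL' : Between (coboundaries (fun σ : stabD P => ρ' σ)) L' (cocycles (fun σ : stabD P => ρ' σ))) :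
    IsFinSelmer (inertiaOffTwo K) (cyclo E) κ ρ b (stabD P) L ∧
    IsFinSelmer (inertiaOffTwo K) (cyclo E) κ ρ' b' (stabD P) L' ∧
    (selmerNumber (inertiaOffTwo K) (cyclo E) κ ρ b (stabD P) L + localNumber D T R ρ ≡
      selmerNumber (inertiaOffTwo K) (cyclo E) κ ρ' b' (stabD P) L' + localNumber D T R ρ'
        [MOD 2]) :=
  RP.finalP K hK D hD hD8 s hs P hP hP2 c hc hcs κ hκ T hT R hR E n ρ ρ' b b' hρ hρ' hb hb' hch hloc
    L L' hL hL'

end Pool.Agent.Results.MP_787500_nt.CongruentParity
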