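import Mathlib
import Pool.Agent.Work.MP_787500_nt.XS.FDefs
import Pool.Agent.Work.MP_787500_nt.XS.Main

/-!
Dimensions of 2-adic Bloch-Kato Selmer groups of conjugate self-dual representations over an imaginary quadratic field in
which 2 splits and one prime above 2 splits in no quadratic extension that is unramified outside 2 (for example the
fields of discriminant `-q` with `q` a prime, 7 modulo 16). The representation is unramified outside 2 and the image is pro-2. If `s`
and `l` are the dimensions of the Selmer group and of the local condition, then `s ≤ l`, `s ≤ n + 2 h - l` and `l - s` is even. So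
in dimension 2 without invariant vectors the Selmer group of a local condition of dimension 1 has dimension exactly 1.
-/

set_option autoImplicit false

namespace Pool.Agent.Results.MP_787500_nt.ExactSelmer

open Pool.Agent.Work.MP_787500_nt Pool.Agent.Work.MP_787500_nt.Parity
open Pool.Agent.Work.MP_787500_nt.GP (inT stabD)
open NumberField

universe u v

theorem result (K : Type u) [Field K] [NumberField K] (hK : Module.finrank ℚ K = 2) (D : ℕ)
    (hD : Squarefree D) (hD8 : D % 8 = 7) (s : K) (hs : s ^ 2 = -(D : K))
    (P : Ideal (𝓞 (AlgebraicClosure K))) (hP : P.IsPrime)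
    (hP2 : (2 : 𝓞 (AlgebraicClosure K)) ∈ P)
    (hS : (D.Prime ∧ D % 16 = 7) ∨ NoSplit (inT K ∅) (stabD P))
    (c : AlgebraicClosure K ≃+* AlgebraicClosure K) (hc : ∀ x, c (c x) = x)
    (hcs : c (algebraMap K (AlgebraicClosure K) s) = -algebraMap K (AlgebraicClosure K) s)
    (κ : AbsGal K → AbsGal K)
    (hκ : ∀ (σ : AbsGal K) (x : AlgebraicClosure K), κ σ x = c (σ (c x)))
    (E : Type v) [NormedField E] [NormedAlgebra ℚ_[2] E] [FiniteDimensional ℚ_[2] E] (n : ℕ)
    (ρ : AbsGal K →* Matrix (Fin n) (Fin n) E) (b : Matrix (Fin n) (Fin n) E) (hb : b.det ≠ 0)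
    (hρ : IsDualRep (inT K ∅) (cyclo E) κ ρ b) (hN : ProTwoOn ⊤ ρ) :
    ExactBK (inertiaOffTwo K) (cyclo E) κ ρ b (stabD P) :=
  XS.exact_final K hK D hD hD8 s hs P hP hP2 hS c hc hcs κ hκ E n ρ b hb hρ hN

end Pool.Agent.Results.MP_787500_nt.ExactSelmer
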